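import Pool.Agent.Run7.h893.NP.Few
import Pool.Agent.H340R2.LW

/-!
# `1 / π` is not a value of a polynomial at the periods of almost all fibres of mixed hypergeometric motives

Polynomials with algebraic coefficients in the periods (of effective motives over the algebraic numbers) are periods in the
sense of Kontsevich and Zagier. Is one of the numbers `e`, `1 / π`, `γ` such a polynomial? The hand-ins for this question
so far are about the periods of curves and of 1-motives. Here we consider motives of arbitrary weight and their extensions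
by mixed Tate motives.

Let `θ^n f = z Q(θ) f` be a self-dual hypergeometric equation with maximally unipotent monodromy at `z = 0` (`Eqn`, see
`HypergeometricOrthogonal` of MP_57341d_ag; for example the Picard-Fuchs equations of the mirror families of elliptic curves,
K3 surfaces, Calabi-Yau threefolds and fourfolds with one parameter). The Frobenius series `∑_k a_k(ε) z^(k + ε)` solves
the equation `(θ^n - z Q(θ)) f = ε^n z^ε`. Its coefficients `f_0, …, f_{n-1}` at `ε^j` are a basis of the solutions, and the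
higher coefficients solve the inhomogeneous equations `(θ^n - z Q(θ)) f_{n+j} = (log z)^j / j!` (truncated higher normal
functions, see `HypergeometricNormalFunctions` of MP_1eadae_ag). The fibre at `z = 1 / t` of the mixed motive has the period
matrix `Ỹ(t) (Ω, W; 0, A)`, where `Ỹ(t) = (Y, U; 0, E)`, `Y = (θ^a f_b)(1 / t)`, `U = (θ^a f_{n+b})(1 / t)`, `E` is the
unipotent matrix of the powers of `-log t`, and the matrix `(Ω, W; 0, A)` of constants contains the periods of the limit
mixed motive. By the formula with the Gamma class one expects (and knows in many cases) that `Ω = G H`, where `G` is an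
isometry of the form `J`, the exponential of an odd polynomial in the logarithm of the monodromy (whose coefficients contain
the odd zeta values and the logarithms), and the entries of `H` are polynomials in `π` with algebraic coefficients.

(1) Let `R` be a ring which contains the algebraic numbers, `Ω_i = G_i H_i` with isometries `G_i` and matrices `H_i`
over `R`, `A_i` invertible matrices with entries in `R`, `W_i` arbitrary matrices, and `Z` a `ℚ`-space of complex numbers of
dimension `≤ D` (for example the space generated by `e`, `1 / π` and `γ`). For almost all tuples of fibres the numbers in `Z`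
which are values of polynomials of degree at most `δ` over `V`, a space in `R` of dimension at most `D`, at the
periods of the fibres, are in `R`. So the periods give no new numbers in `Z`.
(2) For the ring `R = ℚ̄[π]`: for almost all tuples of fibres `1 / π`, and more generally the numbers
`c_1 / π + … + c_D / π^D` with `c_j` in `V`, not all `0`, are not such values if the `H_i` and `A_i` have entries in `ℚ̄[π]`
and `V` consists of algebraic numbers.
-/

set_option autoImplicit false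

open Pool.Agent.Results.MP_57341d_ag.HypergeometricOrthogonal (Eqn)
open Pool.Agent.Results.MP_1eadae_ag.HypergeometricNormalFunctions (point Yfull unip)

namespace Pool.Agent.Results.MP_725b61_nt.HypergeometricNoNewNumbers

/-- the field of the algebraic numbers -/
noncomputable abbrev Qbar : IntermediateField ℚ ℂ := algebraicClosure ℚ ℂ

/-- the coordinates: for every `i` a number and a matrix -/
abbrev Coord {k : ℕ} (e : Fin k → Eqn) (q : Fin k → ℕ) : Type :=
  Σ i : Fin k, Option ((Fin (e i).order ⊕ Fin (q i)) × (Fin (e i).order ⊕ Fin (q i)))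

/-- the periods of the fibres: the numbers `log t_i` and the entries of the matrices `Ỹ_i(t_i) (Ω_i, W_i; 0, A_i)` -/
noncomputable def periods {k : ℕ} {e : Fin k → Eqn} {q : Fin k → ℕ} (Ω : ∀ i, Matrix (Fin (e i).order) (Fin (e i).order) ℂ)
    (W : ∀ i, Matrix (Fin (e i).order) (Fin (q i)) ℂ) (A : ∀ i, Matrix (Fin (q i)) (Fin (q i)) ℂ) (t : Fin k → ℕ) :
    Coord e q → ℂ :=
  point (fun i => ((Real.log (t i) : ℝ) : ℂ)) fun i => Yfull (e i) (q i) (t i) * Matrix.fromBlocks (Ω i) (W i) 0 (A i)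

/-- the values at `v` of the polynomials of degree `≤ δ` with coefficients in `V` -/
def Values {k : ℕ} {e : Fin k → Eqn} {q : Fin k → ℕ} (δ : ℕ) (V : Submodule ℚ ℂ) (v : Coord e q → ℂ) : Set ℂ :=
  {z | ∃ P : MvPolynomial (Coord e q) ℂ, P.totalDegree ≤ δ ∧ (∀ m, P.coeff m ∈ V) ∧ MvPolynomial.aeval v P = z}

theorem alg_mem (R : Subalgebra Qbar ℂ) {x : ℂ} (hx : IsAlgebraic ℚ x) : x ∈ R :=
  R.algebraMap_mem (⟨x, mem_algebraicClosure_iff.2 hx⟩ : Qbar)

theorem aeval_mem {σ : Type*} (R : Subalgebra Qbar ℂ) {P : MvPolynomial σ ℂ} (hP : ∀ m, P.coeff m ∈ R) {v : σ → ℂ}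
    (hv : ∀ c, v c ∈ R) : MvPolynomial.aeval v P ∈ R := by
  rw [MvPolynomial.aeval_def, MvPolynomial.eval₂_eq]
  exact sum_mem fun m _ => mul_mem (hP m) (prod_mem fun c _ => pow_mem (hv c) _)

/-- the values of the polynomials at the points of the torsor -/
theorem key {k : ℕ} {e : Fin k → Eqn} (he : ∀ i, (e i).Admissible) {q : Fin k → ℕ} (R : Subalgebra Qbar ℂ)
    {G H : ∀ i, Matrix (Fin (e i).order) (Fin (e i).order) ℂ} (hG : ∀ i, (G i).transpose * (e i).J * G i = (e i).J)
    (hH : ∀ i a b, H i a b ∈ R) {W : ∀ i, Matrix (Fin (e i).order) (Fin (q i)) ℂ} {A : ∀ i, Matrix (Fin (q i)) (Fin (q i)) ℂ}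
    (hA : ∀ i, (A i).det ≠ 0) (hAR : ∀ i a b, A i a b ∈ R) {t : Fin k → ℕ} (ht : ∀ i, 2 ≤ t i)
    {P : MvPolynomial (Coord e q) ℂ} (hP : ∀ m, P.coeff m ∈ R) :
    ∃ (X : ∀ i, Matrix (Fin (e i).order) (Fin (e i).order) ℂ) (y : ∀ i, Matrix (Fin (e i).order) (Fin (q i)) ℂ),
      (∀ i, X i ∈ (e i).T (1 / (t i : ℂ))) ∧
      MvPolynomial.aeval (point (fun _ => 0) fun i => Matrix.fromBlocks (X i) (y i) 0 (unip (q i) 0) *
        Matrix.fromBlocks (G i * H i) (W i) 0 (A i)) P ∈ R := by
  choose X₀ hX₀ hX₀a using fun i => Run7.h893.NP.exists_alg (e i) (he i) (ht i)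
  have hJd : ∀ i, (e i).J.det ≠ 0 := fun i =>
    (Pool.Agent.Results.MP_57341d_ag.HypergeometricOrthogonal.fam (e i) (he i)).det
  have hGd : ∀ i, IsUnit (G i).det := by
    intro i
    refine Ne.isUnit fun h => hJd i ?_
    rw [← hG i, Matrix.det_mul, h, mul_zero]
  have hGt : ∀ i, IsUnit (G i).transpose.det := fun i => by
    rw [Matrix.det_transpose]
    exact hGd i
  have hX : ∀ i, X₀ i * (G i)⁻¹ ∈ (e i).T (1 / (t i : ℂ)) := by
    intro i
    have h1 : (X₀ i).transpose * (e i).B (1 / (t i : ℂ)) * X₀ i = (e i).J := hX₀ i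
    show (X₀ i * (G i)⁻¹).transpose * (e i).B (1 / (t i : ℂ)) * (X₀ i * (G i)⁻¹) = (e i).J
    calc (X₀ i * (G i)⁻¹).transpose * (e i).B (1 / (t i : ℂ)) * (X₀ i * (G i)⁻¹) =
        ((G i)⁻¹).transpose * ((X₀ i).transpose * (e i).B (1 / (t i : ℂ)) * X₀ i) * (G i)⁻¹ := by
          rw [Matrix.transpose_mul]
          simp only [Matrix.mul_assoc]
      _ = ((G i).transpose)⁻¹ * ((G i).transpose * (e i).J * G i) * (G i)⁻¹ := by
          rw [h1, Matrix.transpose_nonsing_inv, hG i]
      _ = (((G i).transpose)⁻¹ * (G i).transpose) * (e i).J * (G i * (G i)⁻¹) := by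
          simp only [Matrix.mul_assoc]
      _ = _ := by rw [Matrix.mul_nonsing_inv _ (hGd i), Matrix.nonsing_inv_mul _ (hGt i), Matrix.one_mul, Matrix.mul_one]
  refine ⟨fun i => X₀ i * (G i)⁻¹, fun i => -(X₀ i * (G i)⁻¹ * W i) * (A i)⁻¹, hX, aeval_mem R hP fun c => ?_⟩
  have h2 : ∀ i, Matrix.fromBlocks (X₀ i * (G i)⁻¹) (-(X₀ i * (G i)⁻¹ * W i) * (A i)⁻¹) 0 (unip (q i) 0) *
      Matrix.fromBlocks (G i * H i) (W i) 0 (A i) = Matrix.fromBlocks (X₀ i * H i) 0 0 (unip (q i) 0 * A i) := by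
    intro i
    rw [Matrix.fromBlocks_multiply]
    have e1 : X₀ i * (G i)⁻¹ * (G i * H i) = X₀ i * H i := by
      rw [← Matrix.mul_assoc, Matrix.mul_assoc (X₀ i), Matrix.nonsing_inv_mul _ (hGd i), Matrix.mul_one]
    have e2 : -(X₀ i * (G i)⁻¹ * W i) * (A i)⁻¹ * A i = -(X₀ i * (G i)⁻¹ * W i) := by
      rw [Matrix.mul_assoc, Matrix.nonsing_inv_mul _ (Ne.isUnit (hA i)), Matrix.mul_one]
    rw [e1, e2]
    simp
  have hm : ∀ {m n : Type} [Fintype m] [Fintype n] (a : Matrix n m ℂ) (b : Matrix m n ℂ) (i j : n),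
      (∀ i j, a i j ∈ R) → (∀ i j, b i j ∈ R) → (a * b) i j ∈ R := by
    intro m n _ _ a b i j ha hb
    rw [Matrix.mul_apply]
    exact sum_mem fun l _ => mul_mem (ha _ _) (hb _ _)
  have hu : ∀ (i : Fin k) (a b : Fin (q i)), unip (q i) 0 a b ∈ R := by
    intro i a b
    unfold unip
    rw [Matrix.of_apply]
    split_ifs
    · refine alg_mem R ?_
      rw [neg_zero]
      have h3 : ((0 : ℂ) ^ ((b : ℕ) - a) / (((b : ℕ) - a).factorial : ℂ)) =
          (((0 : ℚ) ^ ((b : ℕ) - a) / (((b : ℕ) - a).factorial : ℚ) : ℚ) : ℂ) := by push_cast; rfl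
      rw [h3]
      exact isAlgebraic_algebraMap _
    · exact zero_mem _
  obtain ⟨i, _ | ⟨a | a, b | b⟩⟩ := c
  · exact zero_mem R
  · show (Matrix.fromBlocks (X₀ i * (G i)⁻¹) (-(X₀ i * (G i)⁻¹ * W i) * (A i)⁻¹) 0 (unip (q i) 0) *
      Matrix.fromBlocks (G i * H i) (W i) 0 (A i)) (.inl a) (.inl b) ∈ R
    rw [h2]
    exact hm _ _ _ _ (fun a b => alg_mem R (hX₀a i a b)) (hH i)
  · show (Matrix.fromBlocks (X₀ i * (G i)⁻¹) (-(X₀ i * (G i)⁻¹ * W i) * (A i)⁻¹) 0 (unip (q i) 0) *
      Matrix.fromBlocks (G i * H i) (W i) 0 (A i)) (.inl a) (.inr b) ∈ R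
    rw [h2]
    exact zero_mem R
  · show (Matrix.fromBlocks (X₀ i * (G i)⁻¹) (-(X₀ i * (G i)⁻¹ * W i) * (A i)⁻¹) 0 (unip (q i) 0) *
      Matrix.fromBlocks (G i * H i) (W i) 0 (A i)) (.inr a) (.inl b) ∈ R
    rw [h2]
    exact zero_mem R
  · show (Matrix.fromBlocks (X₀ i * (G i)⁻¹) (-(X₀ i * (G i)⁻¹ * W i) * (A i)⁻¹) 0 (unip (q i) 0) *
      Matrix.fromBlocks (G i * H i) (W i) 0 (A i)) (.inr a) (.inr b) ∈ R
    rw [h2]
    exact hm _ _ _ _ (hu i) (hAR i)

/-- `π` is transcendental over the field of the algebraic numbers -/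
theorem pi_tr : Transcendental Qbar (Real.pi : ℂ) := by
  intro h
  have : Algebra.IsAlgebraic ℚ Qbar := algebraicClosure.isAlgebraic ℚ ℂ
  exact Pool.Agent.H340R2.LW.transcendental_pi_complex (IsAlgebraic.restrictScalars ℚ h)

/-- polynomials in `1 / π` without constant term are not polynomials in `π` -/
theorem inv_pi {d : ℕ} {c : Fin d → ℂ} (hc : ∀ j, IsAlgebraic ℚ (c j))
    (h : ∑ j : Fin d, c j / (Real.pi : ℂ) ^ ((j : ℕ) + 1) ∈ Algebra.adjoin Qbar {(Real.pi : ℂ)}) : c = 0 := by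
  rw [Algebra.adjoin_singleton_eq_range_aeval] at h
  obtain ⟨p, hp⟩ := h
  have hp' : Polynomial.aeval (Real.pi : ℂ) p = ∑ j : Fin d, c j / (Real.pi : ℂ) ^ ((j : ℕ) + 1) := hp
  have hpi : (Real.pi : ℂ) ≠ 0 := by exact_mod_cast Real.pi_ne_zero
  set c' : Fin d → Qbar := fun j => ⟨c j, mem_algebraicClosure_iff.2 (hc j)⟩ with hc'
  set r : Polynomial Qbar := ∑ j : Fin d, Polynomial.monomial (d - 1 - (j : ℕ)) (c' j) with hr
  have h1 : Polynomial.aeval (Real.pi : ℂ) (Polynomial.X ^ d * p - r) = 0 := by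
    rw [map_sub, map_mul, map_pow, Polynomial.aeval_X, hp', hr, map_sum, Finset.mul_sum, ← Finset.sum_sub_distrib]
    refine Finset.sum_eq_zero fun j _ => ?_
    rw [Polynomial.aeval_monomial, sub_eq_zero]
    have hj := j.2
    have h2 : (Real.pi : ℂ) ^ d = (Real.pi : ℂ) ^ (d - 1 - (j : ℕ)) * (Real.pi : ℂ) ^ ((j : ℕ) + 1) := by
      rw [← pow_add]
      congr 1
      omega
    rw [h2]
    have h3 : (Real.pi : ℂ) ^ ((j : ℕ) + 1) ≠ 0 := pow_ne_zero _ hpi
    have h4 : (algebraMap Qbar ℂ) (c' j) = c j := rfl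
    rw [h4]
    field_simp
  have h2 : Polynomial.X ^ d * p - r = 0 := by
    by_contra hne
    exact pi_tr ⟨_, hne, h1⟩
  funext j
  have hj := j.2
  have h3 := congrArg (fun f => Polynomial.coeff f (d - 1 - (j : ℕ))) h2
  simp only [Polynomial.coeff_sub, Polynomial.coeff_zero] at h3
  rw [Polynomial.coeff_X_pow_mul', if_neg (by omega), zero_sub, neg_eq_zero, hr, Polynomial.finsetSum_coeff,
    Finset.sum_eq_single j] at h3
  · rw [Polynomial.coeff_monomial, if_pos rfl] at h3
    exact congrArg Subtype.val h3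
  · intro b _ hb
    rw [Polynomial.coeff_monomial, if_neg]
    intro h4
    apply hb
    apply Fin.ext
    have := b.2
    omega
  · intro h4
    exact absurd (Finset.mem_univ _) h4

/-- Let `e_i`, `1 ≤ i ≤ k`, be admissible self-dual hypergeometric equations of odd or even orders and `q_i ≥ 0`. For all
`δ` and `D` there are `γ > 0` and `C` such that for all `ℚ`-spaces `V` of complex numbers of dimension `≤ D`, all complex
matrices `G_i` with `G_iᵀ J_i G_i = J_i`, all complex matrices `H_i`, `W_i` and invertible complex matrices `A_i` and every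
box `∏_i (x_i, x_i + N]` with `x_i ≥ 1` all but `C N^(k-1) ∑_i (1 + N / (x_i + N)^γ)` integral points `t` of the box have the
following property: (1) if a ring `R` contains the algebraic numbers, the elements of `V` and the entries of the matrices `H_i` and
`A_i`, and `Z` is a `ℚ`-space of complex numbers of dimension `≤ D`, then all numbers in `Z` which are values of polynomials of
degree `≤ δ` with coefficients in `V` at the periods of the fibres at `1 / t_i` (with `Ω_i = G_i H_i`) are in `R`; (2) if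
the elements of `V` are algebraic and the entries of the `H_i` and `A_i` are in `ℚ̄[π]`, then no number
`c_1 / π + … + c_D / π^D` with `c_j ∈ V`, not all `0`, is such a value. -/
theorem result (k : ℕ) (e : Fin k → Eqn) (he : ∀ i, (e i).Admissible) (q : Fin k → ℕ) (δ D : ℕ) :
    ∃ γ C : ℝ, 0 < γ ∧ ∀ V : Submodule ℚ ℂ, Module.Finite ℚ V → Module.finrank ℚ V ≤ D →
      ∀ (G H : ∀ i, Matrix (Fin (e i).order) (Fin (e i).order) ℂ) (W : ∀ i, Matrix (Fin (e i).order) (Fin (q i)) ℂ)
        (A : ∀ i, Matrix (Fin (q i)) (Fin (q i)) ℂ), (∀ i, (G i).transpose * (e i).J * G i = (e i).J) →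
        (∀ i, (A i).det ≠ 0) →
      ∀ (x : Fin k → ℕ) (N : ℕ), (∀ i, 1 ≤ x i) → 1 ≤ N →
      (∀ R : Subalgebra Qbar ℂ, (∀ v ∈ V, v ∈ R) → (∀ i a b, H i a b ∈ R) → (∀ i a b, A i a b ∈ R) →
        ∀ Z : Submodule ℚ ℂ, Module.Finite ℚ Z → Module.finrank ℚ Z ≤ D →
        (({t : Fin k → ℕ | (∀ i, x i < t i ∧ t i ≤ x i + N) ∧
          ¬ ∀ z ∈ Z, z ∈ Values δ V (periods (fun i => G i * H i) W A t) → z ∈ R}.ncard : ℕ) : ℝ) ≤
          C * (N : ℝ) ^ (k - 1) * ∑ i, (1 + N / ((x i : ℝ) + N) ^ γ)) ∧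
      ((∀ v ∈ V, IsAlgebraic ℚ v) → (∀ i a b, H i a b ∈ Algebra.adjoin Qbar {(Real.pi : ℂ)}) →
        (∀ i a b, A i a b ∈ Algebra.adjoin Qbar {(Real.pi : ℂ)}) →
        (({t : Fin k → ℕ | (∀ i, x i < t i ∧ t i ≤ x i + N) ∧
          ¬ ∀ c : Fin D → ℂ, (∀ j, c j ∈ V) → c ≠ 0 →
            ∑ j : Fin D, c j / (Real.pi : ℂ) ^ ((j : ℕ) + 1) ∉ Values δ V (periods (fun i => G i * H i) W A t)}.ncard : ℕ) : ℝ) ≤
          C * (N : ℝ) ^ (k - 1) * ∑ i, (1 + N / ((x i : ℝ) + N) ^ γ)) := by
  classical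
  obtain ⟨γ, C, hγ, hmain⟩ :=
    Pool.Agent.Results.MP_1eadae_ag.HypergeometricNormalFunctions.result k e he q δ (D + D * D)
  refine ⟨γ, C, hγ, ?_⟩
  intro V hVf hV G H W A hG hA x N hx hN
  have hgen : ∀ R : Subalgebra Qbar ℂ, (∀ v ∈ V, v ∈ R) → (∀ i a b, H i a b ∈ R) → (∀ i a b, A i a b ∈ R) →
      ∀ Z : Submodule ℚ ℂ, Module.Finite ℚ Z → Module.finrank ℚ Z ≤ D * D ⊔ D →
      (({t : Fin k → ℕ | (∀ i, x i < t i ∧ t i ≤ x i + N) ∧
        ¬ ∀ z ∈ Z, z ∈ Values δ V (periods (fun i => G i * H i) W A t) → z ∈ R}.ncard : ℕ) : ℝ) ≤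
        C * (N : ℝ) ^ (k - 1) * ∑ i, (1 + N / ((x i : ℝ) + N) ^ γ) := by
    intro R hVR hHR hAR Z hZf hZ
    have hDD : D * D ⊔ D = D * D := by
      rcases Nat.eq_zero_or_pos D with h | h
      · rw [h]
        rfl
      · exact max_eq_left (Nat.le_mul_of_pos_left D h)
    rw [hDD] at hZ
    have h1 := hmain (V ⊔ Z) inferInstance ((Submodule.finrank_add_le_finrank_add_finrank V Z).trans (add_le_add hV hZ))
      (fun i => Matrix.fromBlocks (G i * H i) (W i) 0 (A i)) x N hx hN
    refine le_trans (Nat.cast_le.2 (Set.ncard_le_ncard ?_ ?_)) h1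
    · rintro t ⟨hbox, hI⟩
      refine ⟨hbox, ?_⟩
      by_contra hE
      apply hI
      rintro z hzZ ⟨P, hPd, hPV, hPz⟩
      have ht2 : ∀ i, 2 ≤ t i := fun i => by
        have := (hbox i).1
        have := hx i
        omega
      obtain ⟨X, y, hX, hXR⟩ := key he R hG hHR (W := W) hA hAR ht2 (fun m => hVR _ (hPV m))
      have h2 : MvPolynomial.aeval (point (fun _ => 0) fun i => Matrix.fromBlocks (X i) (y i) 0 (unip (q i) 0) *
          Matrix.fromBlocks (G i * H i) (W i) 0 (A i)) P = z := by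
        by_contra hne
        apply hE
        refine ⟨P - MvPolynomial.C z, ?_, fun m => ?_, ?_, fun _ => 0, X, y, hX, ?_⟩
        · refine (MvPolynomial.totalDegree_sub _ _).trans (max_le hPd ?_)
          rw [MvPolynomial.totalDegree_C]
          exact Nat.zero_le _
        · rw [MvPolynomial.coeff_sub, MvPolynomial.coeff_C]
          refine sub_mem (Submodule.mem_sup_left (hPV m)) (Submodule.mem_sup_right ?_)
          split_ifs
          · exact hzZ
          · exact zero_mem _
        · rw [map_sub, MvPolynomial.aeval_C, sub_eq_zero]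
          exact hPz
        · rw [map_sub, MvPolynomial.aeval_C]
          exact sub_ne_zero.2 hne
      rw [h2] at hXR
      exact hXR
    · refine (Set.finite_Iic (fun i : Fin k => x i + N)).subset ?_
      intro t ht i
      exact (ht.1 i).2
  refine ⟨fun R hVR hHR hAR Z hZf hZ => hgen R hVR hHR hAR Z hZf (hZ.trans le_sup_right), ?_⟩
  intro hVa hHR hAR
  obtain ⟨hf, hr⟩ := Run7.h893.NP.VZ_fin V (fun j : Fin D => ((Real.pi : ℂ) ^ ((j : ℕ) + 1))⁻¹)
  have h1 := hgen (Algebra.adjoin Qbar {(Real.pi : ℂ)}) (fun v hv => alg_mem _ (hVa v hv)) hHR hAR _ hf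
    ((hr.trans (Nat.mul_le_mul_left _ hV)).trans le_sup_left)
  refine le_trans (Nat.cast_le.2 (Set.ncard_le_ncard ?_ ?_)) h1
  · rintro t ⟨hbox, hI⟩
    refine ⟨hbox, fun h => hI fun c hcV hc0 hval => hc0 ?_⟩
    refine inv_pi (fun j => hVa _ (hcV j)) (h _ ?_ hval)
    have h2 := Run7.h893.NP.mem_VZ V (fun j : Fin D => ((Real.pi : ℂ) ^ ((j : ℕ) + 1))⁻¹) hcV
    have h3 : ∑ j : Fin D, ((Real.pi : ℂ) ^ ((j : ℕ) + 1))⁻¹ * c j = ∑ j : Fin D, c j / (Real.pi : ℂ) ^ ((j : ℕ) + 1) :=
      Finset.sum_congr rfl fun j _ => by rw [div_eq_mul_inv, mul_comm]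
    rw [h3] at h2
    exact h2
  · refine (Set.finite_Iic (fun i : Fin k => x i + N)).subset ?_
    intro t ht i
    exact (ht.1 i).2

end Pool.Agent.Results.MP_725b61_nt.HypergeometricNoNewNumbers
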