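import Pool.Agent.Run7.h788.NoNew
import Pool.Agent.R350.GV

/-!
# Random 1-periods produce no new relations between given numbers: `e`, `1 / π`, Euler's constant

Polynomials with algebraic coefficients in logarithms of algebraic numbers, elliptic logarithms of
algebraic points and integrals of the second kind with algebraic end points on elliptic curves over the
algebraic numbers are periods in the sense of Kontsevich and Zagier (the periods of 1-motives with toric
and elliptic parts).  Is one of the numbers `e`, `1 / π`, `γ` of this kind?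

Let `E_j = ℂ/Ω_j`, `j ≤ n₁`, be elliptic curves with complex multiplication and `E'_j = ℂ/Ω'_j`, `j ≤ n₂`,
ARBITRARY elliptic curves over the algebraic numbers (curves may be equal or isogenous), with integrals
`J_j(z) = σ_j ζ(z) + ρ_j z` of the second kind on `E'_j`.  Let `u_{j,1}, …, u_{j,k}` be elliptic logarithms
of ARBITRARY algebraic points of `E_j`, linearly independent over `End(E_j) ⊗ ℚ`, `v_{j,1}, …, v_{j,k}`
such elliptic logarithms for `E'_j`, and `λ_{j,1}, …, λ_{j,k}` (`j ≤ r`) logarithms of algebraic numbers,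
linearly independent over `ℚ`, and let

  `p_j = b_j + ∑_i (m_{j,i,0} + m_{j,i,1} α_j) u_{j,i}`,  `q_j = c_j + ∑_i m'_{j,i} v_{j,i}`,
  `y_j = τ_j + ∑_i m''_{j,i} λ_{j,i}`

with all the coefficients in a finite set `A` of integers.

**Theorem.** For all `n₁`, `n₂`, `r`, `g`, `D` there are `k₀`, `C` and `δ > 0` such that for all
`k ≥ k₀`, all these data, all `A` and ALL complex numbers `z_1, …, z_g` (for instance `e`, `1 / π`, `γ`), for
all but `C |A| ^ ((2 n₁ + n₂ + r) k - δ k)` of the coefficients: the points `p_j`, `q_j` are not in the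
lattices, `℘(p_j)`, `℘(q_j)` are algebraic, and there is a space `F` of dimension at most `C` of linear
forms in `1` and logarithms of algebraic numbers such that the `y_j` are linearly independent modulo `F`,
and such that for ARBITRARY further linear forms `l_1, …, l_t` in `1` and logarithms of algebraic numbers,
any number of them, chosen after the random points and linearly independent modulo `F` and the `y_j`:

(1) every polynomial relation with algebraic coefficients between the numbers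

  `z_i`, `p_j`, `ζ(p_j)`, `J_j(q_j)`, `y_j`, `l_1, …, l_t`

of degree at most `D` in each of the `z_i`, `p_j`, `ζ(p_j)`, `J_j(q_j)`, `y_j` and of total degree at most
`1` in `l_1, …, l_t` is an identity in the last five groups of variables, that is, a consequence of the
relations between the `z_i`: the random 1-periods produce no new relations;

(2) if `z_i` is transcendental, then it is not a quotient `A(p, ζ(p), J(q), y, l) / B(p, ζ(p), J(q), y, l)`
of polynomials of this kind: `z_i B(…) = A(…)` implies `B = 0`.  So `e` and `1 / π`, and also `γ` if it is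
transcendental, are not in the `field of fractions` of such polynomials.

In the starting results of this problem the periods are those of curves of a family, for random members
or members near a given point (`AffineHyperellipticCurves`, `NoNewNumbersNearAPoint`,
`PeriodsInSmallBalls`, `SimultaneousApproximations`), or linear forms in periods of one variable
(`MonomialsInThreeNumbers`).

**The proof.**  The theorem on random points and logarithms relative to a space of coefficients of
bounded dimension, `Pool.Agent.Run7.h788.rand_mix` (for the proof see `MP_4b482e_nt.RandomPoints`), for the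
space generated by the monomials of degree at most `D + 1` in each `z_i`, and `Pool.Agent.Run7.h788.NoNew`.
-/

set_option autoImplicit false

open scoped PeriodPair

noncomputable section

namespace Pool.Agent.Results.MP_725b61_nt.RandomOneMotives

/-- The field of algebraic numbers. -/
abbrev Qbar : IntermediateField ℚ ℂ := algebraicClosure ℚ ℂ

/-- The Weierstrass zeta function
`ζ(z) = 1/z + ∑_{l ≠ 0} (1/(z - l) + 1/l + z/l²)` (in Lean `1/0 = 0`, so that the term with `l = 0`
of the sum below is `1/z`). -/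
def zetaW (L : PeriodPair) (z : ℂ) : ℂ := ∑' l : L.lattice, (1 / (z - l) + 1 / l + z / l ^ 2)

/-- `u` is an elliptic logarithm of an algebraic point (the elements of the lattice are allowed). -/
def EllLog (L : PeriodPair) (u : ℂ) : Prop := u ∈ L.lattice ∨ IsAlgebraic ℚ (℘[L] u)

/-- `β` belongs to the field `k = End(ℂ/Ω) ⊗ ℚ`: some multiple `m β`, `m ≥ 1`, maps the lattice `Ω`
to itself. -/
def IsMult (L : PeriodPair) (β : ℂ) : Prop :=
  ∃ m : ℕ, 0 < m ∧ ∀ ω ∈ L.lattice, (m : ℂ) * β * ω ∈ L.lattice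

/-- The numbers `w_j` are linearly independent over `k`. -/
def IndepMult (L : PeriodPair) {R : ℕ} (w : Fin R → ℂ) : Prop :=
  ∀ β : Fin R → ℂ, (∀ j, IsMult L (β j)) → ∑ j, β j * w j = 0 → ∀ j, β j = 0

/-- The linear combinations, with algebraic coefficients, of `1` and logarithms of algebraic numbers. -/
def LogForms : Submodule Qbar ℂ :=
  Submodule.span Qbar ({1} ∪ {z : ℂ | IsAlgebraic ℚ (Complex.exp z)})

/-- A curve `ℂ/Ω` with complex multiplication by `α` over the algebraic numbers, with `k` elliptic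
logarithms `u_i` of algebraic points which are linearly independent over `End ⊗ ℚ`, and an elliptic
logarithm `b` of an algebraic point. -/
structure CMGroup (k : ℕ) where
  /-- the lattice `Ω` -/
  L : PeriodPair
  g2 : IsAlgebraic ℚ L.g₂
  g3 : IsAlgebraic ℚ L.g₃
  /-- the multiplication -/
  α : ℂ
  nonreal : α.im ≠ 0
  mult : ∀ ω ∈ L.lattice, α * ω ∈ L.lattice
  /-- the elliptic logarithms -/
  u : Fin k → ℂ
  alg : ∀ i, EllLog L (u i)
  indep : IndepMult L u
  /-- the shift -/
  b : ℂ
  algb : EllLog L b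

/-- The random point `p = b + ∑_i (m_{i,0} + m_{i,1} α) u_i`. -/
def CMGroup.point {k : ℕ} (d : CMGroup k) (m : Fin k × Fin 2 → ℤ) : ℂ :=
  d.b + ∑ i, ((m (i, 0) : ℂ) + m (i, 1) * d.α) * d.u i

/-- An arbitrary curve `ℂ/Ω` over the algebraic numbers, with `k` elliptic logarithms `v_i` of algebraic
points which are linearly independent over `End ⊗ ℚ`, an elliptic logarithm `c` of an algebraic point,
and an integral `σ ζ(z) + ρ z` of the second kind. -/
structure EllGroup (k : ℕ) where
  /-- the lattice `Ω` -/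
  L : PeriodPair
  g2 : IsAlgebraic ℚ L.g₂
  g3 : IsAlgebraic ℚ L.g₃
  /-- the coefficient of `ζ` -/
  σ : ℂ
  /-- the coefficient of `z` -/
  ρ : ℂ
  algσ : IsAlgebraic ℚ σ
  algρ : IsAlgebraic ℚ ρ
  ne : σ ≠ 0 ∨ ρ ≠ 0
  /-- the elliptic logarithms -/
  v : Fin k → ℂ
  alg : ∀ i, EllLog L (v i)
  indep : IndepMult L v
  /-- the shift -/
  c : ℂ
  algc : EllLog L c

/-- The random point `q = c + ∑_i m_i v_i`. -/
def EllGroup.point {k : ℕ} (e : EllGroup k) (m : Fin k → ℤ) : ℂ := e.c + ∑ i, (m i : ℂ) * e.v i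

/-- The integral `J(z) = σ ζ(z) + ρ z`. -/
def EllGroup.J {k : ℕ} (e : EllGroup k) (z : ℂ) : ℂ := e.σ * zetaW e.L z + e.ρ * z

/-- `k` logarithms of algebraic numbers which are linearly independent over `ℚ`, and a linear form `τ` in
`1` and logarithms of algebraic numbers. -/
structure LogGroup (k : ℕ) where
  /-- the logarithms -/
  lam : Fin k → ℂ
  alg : ∀ i, IsAlgebraic ℚ (Complex.exp (lam i))
  indep : LinearIndependent ℚ lam
  /-- the shift -/
  τ : ℂ
  algτ : τ ∈ LogForms

/-- The random logarithm `y = τ + ∑_i m_i λ_i`. -/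
def LogGroup.point {k : ℕ} (f : LogGroup k) (m : Fin k → ℤ) : ℂ := f.τ + ∑ i, (m i : ℂ) * f.lam i

/-- The polynomial in the variables in `τ` which is obtained from `P` by the substitution of the numbers
`z_i` for the variables in `ι`. -/
def atNumbers {ι τ : Type} (z : ι → ℂ) (P : MvPolynomial (ι ⊕ τ) Qbar) : MvPolynomial τ ℂ :=
  MvPolynomial.aeval (Sum.elim (fun i => MvPolynomial.C (z i)) MvPolynomial.X) P

/-- `l_1, …, l_t` are linear forms in `1` and logarithms which are linearly independent modulo `F` and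
`y`. -/
def Further (F : Submodule Qbar ℂ) {n : ℕ} (y : Fin n → ℂ) {t : ℕ} (l : Fin t → ℂ) : Prop :=
  (∀ j, l j ∈ LogForms) ∧
  ∀ c : Fin t → Qbar, ∑ j, c j • l j ∈ F ⊔ Submodule.span Qbar (Set.range y) → ∀ j, c j = 0

/-- The degree in each of the first variables is at most `D`, and the total degree in the last group of
variables is at most `1`. -/
def Bounded {σ : Type} {n t : ℕ} (D : ℕ) (P : MvPolynomial (σ ⊕ (Fin n ⊕ Fin t)) Qbar) : Prop :=
  (∀ i, P.degreeOf (Sum.inl i) ≤ D) ∧ (∀ i, P.degreeOf (Sum.inr (Sum.inl i)) ≤ D) ∧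
  ∀ β ∈ P.support, ∑ j, β (Sum.inr (Sum.inr j)) ≤ 1

/-- All relations of degree at most `D` between the numbers `z`, `x`, `y` which are linear in further
logarithms `l` are identities in `x`, `y`, `l`. -/
def NoNewRelations (F : Submodule Qbar ℂ) (D g : ℕ) (z : Fin g → ℂ) {σ : Type} (x : σ → ℂ) {n : ℕ}
    (y : Fin n → ℂ) : Prop :=
  ∀ (t : ℕ) (l : Fin t → ℂ), Further F y l →
    ∀ P : MvPolynomial (Fin g ⊕ (σ ⊕ (Fin n ⊕ Fin t))) Qbar,
      (∀ i, P.degreeOf (Sum.inl i) ≤ D) → (∀ i, P.degreeOf (Sum.inr (Sum.inl i)) ≤ D) →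
      (∀ i, P.degreeOf (Sum.inr (Sum.inr (Sum.inl i))) ≤ D) →
      (∀ β ∈ P.support, ∑ j, β (Sum.inr (Sum.inr (Sum.inr j))) ≤ 1) →
      MvPolynomial.aeval (Sum.elim z (Sum.elim x (Sum.elim y l))) P = 0 → atNumbers z P = 0

/-- The number `w` is not a quotient of polynomials of degree at most `D` in `x`, `y` which are linear in
further logarithms. -/
def NotQuotient (F : Submodule Qbar ℂ) (D : ℕ) (w : ℂ) {σ : Type} (x : σ → ℂ) {n : ℕ}
    (y : Fin n → ℂ) : Prop :=
  ∀ (t : ℕ) (l : Fin t → ℂ), Further F y l → ∀ A B : MvPolynomial (σ ⊕ (Fin n ⊕ Fin t)) Qbar,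
    Bounded D A → Bounded D B →
    w * MvPolynomial.aeval (Sum.elim x (Sum.elim y l)) B =
      MvPolynomial.aeval (Sum.elim x (Sum.elim y l)) A → B = 0

/-- The coefficients of the random points. -/
abbrev Coeffs (n₁ n₂ r k : ℕ) : Type :=
  ((Fin n₁ → Fin k × Fin 2 → ℤ) × (Fin n₂ → Fin k → ℤ)) × (Fin r → Fin k → ℤ)

/-- All the coefficients are in `A`. -/
def coeffs (n₁ n₂ r k : ℕ) (A : Finset ℤ) : Finset (Coeffs n₁ n₂ r k) :=
  ((Fintype.piFinset fun _ => Fintype.piFinset fun _ => A) ×ˢ
    (Fintype.piFinset fun _ => Fintype.piFinset fun _ => A)) ×ˢ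
    (Fintype.piFinset fun _ => Fintype.piFinset fun _ => A)

/-- The numbers `p_j`, `ζ(p_j)`, `J_j(q_j)`. -/
def ellNumbers {n₁ n₂ r k : ℕ} (d : Fin n₁ → CMGroup k) (e : Fin n₂ → EllGroup k)
    (m : Coeffs n₁ n₂ r k) : (Fin n₁ ⊕ Fin n₁) ⊕ Fin n₂ → ℂ :=
  Sum.elim (Sum.elim (fun j => (d j).point (m.1.1 j))
    (fun j => zetaW (d j).L ((d j).point (m.1.1 j)))) (fun j => (e j).J ((e j).point (m.1.2 j)))

/-- The conclusion: the points are not in the lattices, they are algebraic, and there are no new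
relations. -/
def Good {n₁ n₂ r k : ℕ} (d : Fin n₁ → CMGroup k) (e : Fin n₂ → EllGroup k) (f : Fin r → LogGroup k)
    (C D g : ℕ) (z : Fin g → ℂ) (m : Coeffs n₁ n₂ r k) : Prop :=
  (∀ j, (d j).point (m.1.1 j) ∉ (d j).L.lattice ∧ IsAlgebraic ℚ (℘[(d j).L] ((d j).point (m.1.1 j)))) ∧
  (∀ j, (e j).point (m.1.2 j) ∉ (e j).L.lattice ∧ IsAlgebraic ℚ (℘[(e j).L] ((e j).point (m.1.2 j)))) ∧
  ∃ F : Submodule Qbar ℂ, Module.Finite Qbar F ∧ Module.finrank Qbar F ≤ C ∧ F ≤ LogForms ∧
    (∀ c : Fin r → Qbar, ∑ i, c i • (f i).point (m.2 i) ∈ F → ∀ i, c i = 0) ∧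
    NoNewRelations F D g z (ellNumbers d e m) (fun j => (f j).point (m.2 j)) ∧
    ∀ i, ¬ IsAlgebraic ℚ (z i) →
      NotQuotient F D (z i) (ellNumbers d e m) (fun j => (f j).point (m.2 j))

/-- (1) implies (2), with the degree lowered by one. -/
theorem notQuotient {F : Submodule Qbar ℂ} {D g : ℕ} {z : Fin g → ℂ} {σ : Type} [Fintype σ]
    {x : σ → ℂ} {n : ℕ} {y : Fin n → ℂ} (h : NoNewRelations F (D + 1) g z x y) (i : Fin g)
    (hi : ¬ IsAlgebraic ℚ (z i)) : NotQuotient F D (z i) x y := by
  classical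
  intro t l hl A B hA hB hAB
  set P : MvPolynomial (Fin g ⊕ (σ ⊕ (Fin n ⊕ Fin t))) Qbar :=
    MvPolynomial.X (Sum.inl i) * MvPolynomial.rename Sum.inr B - MvPolynomial.rename Sum.inr A with hP
  have hsupp : ∀ β ∈ P.support, (∀ j, β (Sum.inl j) ≤ 1) ∧
      ∃ γ ∈ A.support ∪ B.support, ∀ j, β (Sum.inr j) = γ j := by
    intro β hβ
    have h1 := MvPolynomial.support_sub _ _ _ hβ
    rw [Finset.mem_union] at h1
    rcases h1 with h1 | h1
    · rw [MvPolynomial.support_X_mul, Finset.mem_map] at h1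
      obtain ⟨β', hβ', rfl⟩ := h1
      rw [MvPolynomial.support_rename_of_injective Sum.inr_injective, Finset.mem_image] at hβ'
      obtain ⟨γ, hγ, rfl⟩ := hβ'
      refine ⟨fun j => ?_, γ, Finset.mem_union_right _ hγ, fun j => ?_⟩
      · simp only [addLeftEmbedding_apply, Finsupp.coe_add, Pi.add_apply]
        rw [Finsupp.mapDomain_of_notMem_range _ _ (by rintro ⟨a, ha⟩; cases ha), add_zero,
          Finsupp.single_apply]
        split_ifs <;> simp
      · simp only [addLeftEmbedding_apply, Finsupp.coe_add, Pi.add_apply]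
        rw [Finsupp.mapDomain_apply Sum.inr_injective, Finsupp.single_apply, if_neg (by simp),
          zero_add]
    · rw [MvPolynomial.support_rename_of_injective Sum.inr_injective, Finset.mem_image] at h1
      obtain ⟨γ, hγ, rfl⟩ := h1
      refine ⟨fun j => ?_, γ, Finset.mem_union_left _ hγ, fun j => ?_⟩
      · rw [Finsupp.mapDomain_of_notMem_range _ _ (by rintro ⟨a, ha⟩; cases ha)]
        exact Nat.zero_le _
      · rw [Finsupp.mapDomain_apply Sum.inr_injective]
  have hdegin : ∀ (s : σ ⊕ (Fin n ⊕ Fin t)), A.degreeOf s ≤ D → B.degreeOf s ≤ D →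
      P.degreeOf (Sum.inr s) ≤ D + 1 := by
    intro s h1 h2
    rw [MvPolynomial.degreeOf_le_iff] at h1 h2 ⊢
    intro β hβ
    obtain ⟨-, γ, hγ, hγ2⟩ := hsupp β hβ
    rw [hγ2 s]
    rcases Finset.mem_union.1 hγ with hγ | hγ
    · exact (h1 γ hγ).trans (Nat.le_succ D)
    · exact (h2 γ hγ).trans (Nat.le_succ D)
  have h0 : atNumbers z P = 0 := by
    refine h t l hl P (fun j => ?_) (fun j => hdegin _ (hA.1 j) (hB.1 j))
      (fun j => hdegin _ (hA.2.1 j) (hB.2.1 j)) (fun β hβ => ?_) ?_
    · rw [MvPolynomial.degreeOf_le_iff]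
      intro β hβ
      exact ((hsupp β hβ).1 j).trans (Nat.le_add_left 1 D)
    · obtain ⟨-, γ, hγ, hγ2⟩ := hsupp β hβ
      simp only [hγ2]
      rcases Finset.mem_union.1 hγ with hγ | hγ
      · exact hA.2.2 γ hγ
      · exact hB.2.2 γ hγ
    · rw [hP, map_sub, map_mul, MvPolynomial.aeval_X, MvPolynomial.aeval_rename,
        MvPolynomial.aeval_rename, Sum.elim_comp_inr, Sum.elim_inl, hAB, sub_self]
  have h2 : MvPolynomial.C (z i) * MvPolynomial.map (algebraMap Qbar ℂ) B =
      MvPolynomial.map (algebraMap Qbar ℂ) A := by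
    have e1 : ∀ Q : MvPolynomial (σ ⊕ (Fin n ⊕ Fin t)) Qbar,
        MvPolynomial.aeval (R := Qbar) (MvPolynomial.X : _ → MvPolynomial (σ ⊕ (Fin n ⊕ Fin t)) ℂ) Q =
          MvPolynomial.map (algebraMap Qbar ℂ) Q := by
      intro Q
      have : (MvPolynomial.aeval (R := Qbar)
          (MvPolynomial.X : _ → MvPolynomial (σ ⊕ (Fin n ⊕ Fin t)) ℂ)).toRingHom =
          MvPolynomial.map (algebraMap Qbar ℂ) := by
        refine MvPolynomial.ringHom_ext (fun a => ?_) (fun j => ?_)
        · simp [MvPolynomial.algebraMap_apply]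
        · simp
      exact congrFun (congrArg DFunLike.coe this) Q
    unfold atNumbers at h0
    rw [hP, map_sub, map_mul, MvPolynomial.aeval_X, MvPolynomial.aeval_rename,
      MvPolynomial.aeval_rename, Sum.elim_comp_inr, Sum.elim_inl, e1, e1] at h0
    exact sub_eq_zero.1 h0
  refine MvPolynomial.ext _ _ fun β => ?_
  rw [MvPolynomial.coeff_zero]
  by_contra hβ
  refine hi ?_
  have h3 := congrArg (MvPolynomial.coeff β) h2
  rw [MvPolynomial.coeff_C_mul, MvPolynomial.coeff_map, MvPolynomial.coeff_map] at h3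
  have hne : algebraMap Qbar ℂ (B.coeff β) ≠ 0 := by
    exact (map_ne_zero (algebraMap Qbar ℂ)).2 hβ
  have h5 : z i = algebraMap Qbar ℂ (A.coeff β / B.coeff β) := by
    rw [map_div₀, ← h3]
    field_simp
  rw [h5]
  exact (mem_algebraicClosure_iff (F := ℚ) (E := ℂ)).1 (A.coeff β / B.coeff β).2

open Classical in
/-- **Main result.** -/
theorem result (n₁ n₂ r g D : ℕ) : ∃ (k₀ C : ℕ) (δ : ℝ), 0 < δ ∧ ∀ k ≥ k₀,
    ∀ (d : Fin n₁ → CMGroup k) (e : Fin n₂ → EllGroup k) (f : Fin r → LogGroup k),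
    ∀ A : Finset ℤ, A.Nonempty → ∀ z : Fin g → ℂ,
    (((coeffs n₁ n₂ r k A).filter (fun m => ¬ Good d e f C D g z m)).card : ℝ) ≤
      C * (A.card : ℝ) ^ (((2 * n₁ + n₂ + r) * k : ℝ) - δ * k) := by
  obtain ⟨k₀, C, δ, hδ, h⟩ := Run7.h788.rand_mix n₁ n₂ r (D + 1) ((D + 1 + 1) ^ g)
  refine ⟨k₀, C, δ, hδ, fun k hk d e f A hA z => ?_⟩
  let d' : Fin n₁ → Pool.Agent.Y918.EL.CM := fun j =>
    { L := (d j).L
      g2 := (d j).g2
      g3 := (d j).g3
      α := (d j).α
      hα := (d j).nonreal
      hm := (d j).mult }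
  let e' : Fin n₂ → Pool.Agent.Y918.EL.SK := fun j =>
    { L := (e j).L
      g2 := (e j).g2
      g3 := (e j).g3
      σ := (e j).σ
      ρ := (e j).ρ
      hσ := (e j).algσ
      hρ := (e j).algρ
      hne := (e j).ne }
  obtain ⟨hW, hWN⟩ := Run7.h788.mons_bound (κ := Qbar) z (D + 1)
  rw [Fintype.card_fin] at hWN
  have h1 := h k hk d' (fun j => (d j).u)
    (fun j => ⟨(d j).alg, fun β hβ h0 => funext fun i => (d j).indep β hβ h0 i⟩) (fun j => (d j).b)
    (fun j => (d j).algb) e' (fun j => (e j).v)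
    (fun j => ⟨(e j).alg, fun β hβ h0 => funext fun i => (e j).indep β hβ h0 i⟩) (fun j => (e j).c)
    (fun j => (e j).algc) (fun j => (f j).lam)
    (fun j i => Pool.Agent.H301R2.SSE.Lt_log ((f j).alg i))
    (fun j => Pool.Agent.R350.li_complex _ (f j).alg (f j).indep) (fun j => (f j).τ)
    (fun j => (f j).algτ) A hA _ hW hWN
  refine le_trans (Nat.cast_le.2 (Finset.card_le_card ?_)) h1
  intro m hm
  rw [Finset.mem_filter] at hm ⊢
  refine ⟨hm.1, fun hG => hm.2 ?_⟩
  obtain ⟨⟨hp, hq, -⟩, F, hF1, hF2, hF3, hF4⟩ := hG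
  have he : Run7.h788.ellN d' (fun j => (d j).b) (fun j => (d j).u) e' (fun j => (e j).c)
      (fun j => (e j).v) m.1 = ellNumbers d e m := by
    funext i
    rcases i with (i | i) | i
    · rfl
    · exact Pool.Agent.W245.EB.zt_of_notMem (hp i).1
    · have h5 : Pool.Agent.W245.EB.zt (e i).L ((e i).point (m.1.2 i)) =
          zetaW (e i).L ((e i).point (m.1.2 i)) := Pool.Agent.W245.EB.zt_of_notMem (hq i).1
      change (e i).σ * Pool.Agent.W245.EB.zt (e i).L ((e i).point (m.1.2 i)) +
          (e i).ρ * (e i).point (m.1.2 i) =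
        (e i).σ * zetaW (e i).L ((e i).point (m.1.2 i)) + (e i).ρ * (e i).point (m.1.2 i)
      rw [h5]
  rw [he] at hF4
  have hN := Run7.h788.noNew_of hF4
  have hnew : ∀ D' ≤ D + 1, NoNewRelations F D' g z (ellNumbers d e m)
      (fun j => (f j).point (m.2 j)) := by
    intro D' hD' t l hl P h0 h1 h2 h3 h4
    exact hN.2 t l hl.1 hl.2 P (fun i => (h0 i).trans hD') (fun i => (h1 i).trans hD')
      (fun i => (h2 i).trans hD') h3 h4
  exact ⟨fun j => ⟨(hp j).1, (hp j).2.resolve_left (hp j).1⟩,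
    fun j => ⟨(hq j).1, (hq j).2.resolve_left (hq j).1⟩, F, hF1, hF2, hF3, hN.1,
    hnew D (Nat.le_succ D), fun i hi => notQuotient (hnew (D + 1) le_rfl) i hi⟩

end Pool.Agent.Results.MP_725b61_nt.RandomOneMotives
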