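import Pool.Agent.Run7.h10.QS.H3

/-!
A zero-one law: a number is a period of almost all members of a family, or of almost none.

The periods are the numbers which are periods of varieties over the algebraic numbers, and each such variety is a member
`M_s` of many families; let `f z i` be all the periods of the members `M_z` of an arbitrary family over an open subset `U` of
`ℂ ^ X` (for a family over a variety étale over the affine space the coordinates of the variety, algebraic functions, are
included in `f`). The polynomials with algebraic coefficients in the numbers `f s i` are the periods of all the powers of
`M_s`, if `s` is algebraic. Is the number `e`, or `1 / π`, or Euler's constant, of this kind? We prove that for **every**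
complex number, and more generally for every analytic function `g` in the place of the number, and for **every** family one of
the following is true:

* it is a polynomial in the periods, of degree at most `D` and with algebraic coefficients, for all algebraic points `s` outside
  of few hypersurfaces: in particular it is a period, and for all the members of the family outside of the zeros of one function
  for the same reason (its coefficients are algebraic functions of the point);
* there are few algebraic points `s` for which it is a polynomial in the periods, of degree and height up to a bound which
  tends to infinity.

So if `e` is a polynomial of this kind in the periods of more than few members of a single family, then it is a period, and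
there is a formula which gives `e` in terms of the periods of almost every member. No hypothesis is made on the monodromy of
the family, or on the number.

The proof. Let `L` be the field generated over `ℚ̄(z)` by `g` and the functions `f_i`, and let `Ω` be the field of the
elements of `L` which are algebraic over `ℚ̄(z)`. If `g` is a combination over `Ω` of the monomials of degree at most `D`
in the `f_i`, we specialize the combination. If not, we consider the norm of the linear form `X g + ∑ X_m f ^ m` with
indeterminate coefficients from the integral closure of a polynomial ring `ℚ̄[z, y]`, where `y` is a transcendence basis. It is a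
polynomial in functions independent over `ℚ̄(z)`, and the Nullstellensatz shows that `X` is, up to a denominator, nilpotent
modulo its coefficients; hence at almost all points `s` a relation with `X ≠ 0` gives a nontrivial relation between the
`y_i(s)`, and the count of the starting library applies.
-/

open NumberField

namespace Pool.Agent.Results.MP_725b61_nt.ZeroOneLaw

open Pool.Agent.Run7.h10.QS

section
variable {X σ : Type} [Fintype X] (K : Type) [Field K] [NumberField K]

/-- The number `g z` is a polynomial in the numbers `f z i`, of degree at most `D` in each of them, with coefficients in the
algebraic closure `Const z` of `ℚ(z)`. For algebraic points `z` this is the field of algebraic numbers. -/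
def IsPoly (f : (X → ℂ) → σ → ℂ) (g : (X → ℂ) → ℂ) (D : ℕ) (z : X → ℂ) : Prop :=
  ∃ P : MvPolynomial σ (Const z), (∀ i, P.degreeOf i ≤ D) ∧ MvPolynomial.aeval (f z) P = g z

/-- The points at which `g s` is not a polynomial with algebraic coefficients in the numbers `f s i`, of degree at most `D` in
each of them. -/
def NotPoly (U : Set (X → ℂ)) (f : (X → ℂ) → σ → ℂ) (g : (X → ℂ) → ℂ) (D : ℕ) (io : K →+* ℂ) (k : ℕ) (T : ℝ) :
    Set (X → K) :=
  {s | s ∈ Points K U io k T ∧ ¬IsPoly f g D fun i => io (s i)}

/-- The points at which `g s` is a quotient `R(f s) / c`, where `R` is a polynomial of degree at most `k` in each variable,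
`c ≠ 0`, and the coefficients of `R` and `c` are integers of `K` all conjugates of which are at most `T ^ k`. -/
def Value (U : Set (X → ℂ)) (f : (X → ℂ) → σ → ℂ) (g : (X → ℂ) → ℂ) (io : K →+* ℂ) (k : ℕ) (T : ℝ) : Set (X → K) :=
  {s | s ∈ Points K U io k T ∧ ∃ (c : 𝓞 K) (R : MvPolynomial σ (𝓞 K)), c ≠ 0 ∧
    (∀ φ : K →+* ℂ, ‖φ (c : K)‖ ≤ T ^ k) ∧ Bounded K k T R ∧
    io (c : K) * (g fun i => io (s i)) = value io R (f fun i => io (s i))}

end

/-- Let `U` be a nonempty open connected subset of `ℂ ^ X`, `f : U → ℂ ^ σ` and `g : U → ℂ` analytic, for instance `g` can
be a constant function with the value `e`, `1 / π` or Euler's constant. Then (1) or (2) holds.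
(1) There are `D` and a nonzero function `R(z, g z, f z)`, where `R` is a polynomial over the algebraic numbers, such that at
all points `z` of `U` outside of the zeros of this function `g z` is a polynomial of degree at most `D` in the numbers `f z i`
with coefficients in the algebraic closure of `ℚ(z)`; and there are few algebraic points `s` at which `g s` is not a
polynomial of degree at most `D` in the `f s i` with algebraic coefficients: there is `ω → ∞` such that for all large `T` and
all number fields `K` of degree at most `ω T`, embedded in `ℂ`, these points over `K` of height at most `T` (of norm at most
`ω T` and distance at least `1 / ω T` from the complement of `U`) lie on at most `T ^ (1 / ω T)` hypersurfaces of degree at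
most `T ^ (1 / ω T)`, and there are at most `T ^ (1 / ω T) * N ^ (|X| - 1)` of them, `N` being the number of elements of `K` of
height at most `T`.
(2) In the same sense there are few points `s` over `K` at which `g s = R(f s) / c`, where `c ≠ 0` and the coefficients of `R`
are integers of `K` of size at most `T ^ ω T`, and the degree of `R` in each variable is at most `ω T`. -/
theorem result {X σ : Type} [Fintype X] [DecidableEq X] [Nonempty X] [Fintype σ] [DecidableEq σ]
    {U : Set (X → ℂ)} (hUo : IsOpen U) (hU : IsPreconnected U) (hne : U.Nonempty)
    {f : (X → ℂ) → σ → ℂ} (hf : ∀ i, AnalyticOnNhd ℂ (fun z => f z i) U)
    {g : (X → ℂ) → ℂ} (hg : AnalyticOnNhd ℂ g U) :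
    (∃ D : ℕ,
      (∃ R : MvPolynomial (X ⊕ Option σ) (algebraicClosure ℚ ℂ),
        (∃ z ∈ U, MvPolynomial.aeval (Sum.elim z fun o => o.elim (g z) (f z)) R ≠ 0) ∧
        ∀ z ∈ U, MvPolynomial.aeval (Sum.elim z fun o => o.elim (g z) (f z)) R ≠ 0 → IsPoly f g D z) ∧
      Few fun K _ _ io k T => NotPoly K U f g D io k T) ∨
    Few fun K _ _ io k T => Value K U f g io k T :=
  ring_law hU hUo hne hf hg

end Pool.Agent.Results.MP_725b61_nt.ZeroOneLaw
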